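import Pool.Agent.H65.FF.Core
import Pool.Graph.R_seed8.Y705.Q440.Even
import Pool.Graph.R_seed8.Y705.Q440.Lower
import Pool.Graph.R_seed8.Y430.Q440.Univ

/-!
# The largest three-dimensional cocycles

`f(n,4) ≤ (11/384) n^4` for every `n`, and `f(n,4) = (11/16 + o(1)) C(n,4)`, where `f(n,4)` is the
largest number of edges of a 4-graph on `n` vertices in which every five vertices span an even number
of edges; equivalently, `11/16` of the quadruples is the largest asymptotic proportion of quadruples
that can contain an odd number of triples of a 3-graph.  (Peled: `f(n,4) ≤ (0.6916 + o(1)) C(n,4)`.)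

Proof of the upper bound: a sum of squares on eight vertices for the structures `E` on quadruples
with an odd number of members in every five points (types of six points, 14 types up to symmetry);
the inequality is checked by the kernel for all extensions of the 423 structures on seven points.
Lower bound: de Caen, Kreher and Wiseman.
-/

set_option autoImplicit false

open Finset Filter Topology

namespace Pool.Agent.Results.MP_8ee768_co.LargestCocycles

/-- `G` is a `(k-1)`-dimensional cocycle on `n` vertices: its members are `k`-sets and every `k + 1`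
vertices contain an even number of members of `G` -/
def IsCocycle (n k : ℕ) (G : Finset (Finset (Fin n))) : Prop :=
  (∀ e ∈ G, e.card = k) ∧ ∀ S : Finset (Fin n), S.card = k + 1 → Even (G.filter (· ⊆ S)).card

/-- `f(n,k)`: the largest number of members of a `(k-1)`-dimensional cocycle on `n` vertices -/
noncomputable def f (n k : ℕ) : ℕ :=
  sSup {m : ℕ | ∃ G : Finset (Finset (Fin n)), IsCocycle n k G ∧ G.card = m}

theorem upper (n : ℕ) (G : Finset (Finset (Fin n))) (hG : IsCocycle n 4 G) : 384 * G.card ≤ 11 * n ^ 4 := by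
  refine Pool.Agent.Y705.Q440.tEven Pool.Agent.H65.FF.core n G
    (fun e he => mem_powersetCard.2 ⟨subset_univ _, hG.1 e he⟩) ?_
  intro P hP
  exact hG.2 P (mem_powersetCard.1 hP).2

theorem nonempty_set (n : ℕ) :
    {m : ℕ | ∃ G : Finset (Finset (Fin n)), IsCocycle n 4 G ∧ G.card = m}.Nonempty := by
  refine ⟨0, ∅, ⟨fun e he => absurd he (notMem_empty _), fun S _ => ?_⟩, card_empty⟩
  simp

theorem bdd (n : ℕ) : BddAbove {m : ℕ | ∃ G : Finset (Finset (Fin n)), IsCocycle n 4 G ∧ G.card = m} := by
  refine ⟨11 * n ^ 4, ?_⟩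
  rintro m ⟨G, hG, rfl⟩
  have := upper n G hG
  omega

/-- (1) `f(n,4) ≤ (11/384) n^4` for all `n`.  (2) `f(n,4) = (11/16 + o(1)) C(n,4)`. -/
theorem result :
    (∀ n : ℕ, (f n 4 : ℝ) ≤ 11 / 384 * (n : ℝ) ^ 4) ∧
    Tendsto (fun n : ℕ => (f n 4 : ℝ) / (n.choose 4 : ℝ)) atTop (𝓝 (11 / 16)) := by
  have h1 : ∀ n : ℕ, (f n 4 : ℝ) ≤ 11 / 384 * (n : ℝ) ^ 4 := by
    intro n
    obtain ⟨G, hG, hc⟩ := Nat.sSup_mem (nonempty_set n) (bdd n)
    have hc' : G.card = f n 4 := hc
    have h := upper n G hG
    rw [hc'] at h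
    have h' : (384 : ℝ) * (f n 4 : ℝ) ≤ 11 * (n : ℝ) ^ 4 := by exact_mod_cast h
    linarith
  refine ⟨h1, ?_⟩
  have hP := Pool.Agent.Y440.P.lim Pool.Agent.Y430.Q440.t Pool.Agent.H65.FF.core Pool.Agent.Y705.Q440.Lower.t
    (fun n H => ∀ S ∈ powersetCard 5 (univ : Finset (Fin n)), Even (Pool.Agent.Y440.A.nin H S))
    (fun n H _ h => h) (fun n H _ h => ?_)
  · have e : (fun n : ℕ => (f n 4 : ℝ) / (n.choose 4 : ℝ)) = fun n : ℕ => (Pool.Agent.Y440.P.exP
        (fun n H => ∀ S ∈ powersetCard 5 (univ : Finset (Fin n)), Even (Pool.Agent.Y440.A.nin H S)) n : ℝ) /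
          (n.choose 4 : ℝ) := by
      funext n
      congr 2
      unfold f Pool.Agent.Y440.P.exP
      congr 1
      ext m
      constructor
      · rintro ⟨G, hG, rfl⟩
        exact ⟨G, fun e he => mem_powersetCard.2 ⟨subset_univ _, hG.1 e he⟩,
          fun S hS => hG.2 S (mem_powersetCard.1 hS).2, rfl⟩
      · rintro ⟨G, hG, hE, rfl⟩
        exact ⟨G, ⟨fun e he => (mem_powersetCard.1 (hG he)).2,
          fun S hS => hE S (mem_powersetCard.2 ⟨subset_univ _, hS⟩)⟩, rfl⟩
    rw [e]
    exact hP
  · have hodd : ∀ k : ℕ, ¬ Even k → Pool.Agent.Y440.P.fv H k = 0 := by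
      intro k hk
      unfold Pool.Agent.Y440.P.fv
      rw [card_eq_zero, filter_eq_empty_iff]
      intro S hS h'
      exact hk (h' ▸ h S hS)
    rw [hodd 5 (by decide), hodd 3 (by decide)]
    omega

end Pool.Agent.Results.MP_8ee768_co.LargestCocycles
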